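import Pool.Agent.H461R3.JV.Fin

namespace Pool.Agent.H461R3.AV

open Pool.Agent.H461R3.JV

universe u

variable {F : Type u} [Field F] [CharP F 3] {V C Q : Type u} [AddCommGroup V] [Module F V]
    [Ring C] [Algebra F C] [AddCommGroup Q] [Module F Q]

set_option linter.unusedSimpArgs false in
set_option maxHeartbeats 4000000 in
/-- the algebras `JA D` are (left) alternative -/
theorem left_alt {D : Dat F V C Q} (x y : JA D) : (x * x) * y = x * (x * y) := by
  have hs : ∀ c : C, c + c + c = 0 := three_zero F
  have z3 : ∀ c : C, (3 : ℤ) • c = 0 := fun c => by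
    rw [show (3 : ℤ) = ((3 * 1 : ℕ) : ℤ) by norm_num, natCast_zsmul]; exact nz3 (F := F) 1 c
  have z6 : ∀ c : C, (6 : ℤ) • c = 0 := fun c => by
    rw [show (6 : ℤ) = ((3 * 2 : ℕ) : ℤ) by norm_num, natCast_zsmul]; exact nz3 (F := F) 2 c
  have z12 : ∀ c : C, (12 : ℤ) • c = 0 := fun c => by
    rw [show (12 : ℤ) = ((3 * 4 : ℕ) : ℤ) by norm_num, natCast_zsmul]; exact nz3 (F := F) 4 c
  have m3 : ∀ c : C, (-3 : ℤ) • c = 0 := fun c => by rw [neg_smul, z3, neg_zero]
  have m6 : ∀ c : C, (-6 : ℤ) • c = 0 := fun c => by rw [neg_smul, z6, neg_zero]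
  obtain ⟨e, o, hp, se, he, so, ho⟩ := D.dec x.p
  obtain ⟨e', o', hp', se', he', so', ho'⟩ := D.dec y.p
  obtain ⟨f, g, hq, sf, hf, sg, hg⟩ := D.dec x.q
  obtain ⟨f', g', hq', sf', hf', sg', hg'⟩ := D.dec y.q
  have hu := D.ιc x.v
  have su := D.σι x.v
  have hu' := D.ιc y.v
  have su' := D.σι y.v
  rw [← sub_eq_zero]
  ext
  · simp
  · simp only [JA.v_sub, JA.p_sub, JA.q_sub, JA.s_sub, JA.p_zero, JA.v_mul, JA.p_mul, JA.q_mul, JA.s_mul, map_zero, zero_mul, mul_zero, zero_add, add_zero]
    rw [hp, hp']
    generalize D.ι x.v = u at *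
    generalize D.ι y.v = u' at *
    simp only [sub_eq_add_neg, neg_add, mul_add, add_mul, mul_assoc, mul_neg, neg_mul, neg_neg, mul_zero, zero_mul, neg_zero, add_zero, zero_add,
      osq hs hu su, osq' hs hu su, oswap hu su',
    oswap' hu su', oswap hu so, oswap' hu so,
    oswap hu so', oswap' hu so', oswap hu sg,
    oswap' hu sg, oswap hu sg', oswap' hu sg',
    osq hs hu' su', osq' hs hu' su', oswap hu' so,
    oswap' hu' so, oswap hu' so', oswap' hu' so',
    oswap hu' sg, oswap' hu' sg, oswap hu' sg',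
    oswap' hu' sg', osq hs ho so, osq' hs ho so,
    oswap ho so', oswap' ho so', oswap ho sg,
    oswap' ho sg, oswap ho sg', oswap' ho sg',
    osq hs ho' so', osq' hs ho' so', oswap ho' sg,
    oswap' ho' sg, oswap ho' sg', oswap' ho' sg',
    osq hs hg sg, osq' hs hg sg, oswap hg sg',
    oswap' hg sg', osq hs hg' sg', osq' hs hg' sg',
    cswap he u, cswap' he u, cswap he u',
    cswap' he u', cswap he o, cswap' he o,
    cswap he o', cswap' he o', cswap he g,
    cswap' he g, cswap he g', cswap' he g',
    cswap he e', cswap' he e', cswap he f,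
    cswap' he f, cswap he f', cswap' he f',
    cswap he' u, cswap' he' u, cswap he' u',
    cswap' he' u', cswap he' o, cswap' he' o,
    cswap he' o', cswap' he' o', cswap he' g,
    cswap' he' g, cswap he' g', cswap' he' g',
    cswap he' f, cswap' he' f, cswap he' f',
    cswap' he' f', cswap hf u, cswap' hf u,
    cswap hf u', cswap' hf u', cswap hf o,
    cswap' hf o, cswap hf o', cswap' hf o',
    cswap hf g, cswap' hf g, cswap hf g',
    cswap' hf g', cswap hf f', cswap' hf f',
    cswap hf' u, cswap' hf' u, cswap hf' u',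
    cswap' hf' u', cswap hf' o, cswap' hf' o,
    cswap hf' o', cswap' hf' o', cswap hf' g,
    cswap' hf' g, cswap hf' g', cswap' hf' g']
    abel_nf
    simp only [z3, z6, z12, m3, m6, add_zero]
  · simp only [JA.v_sub, JA.p_sub, JA.q_sub, JA.s_sub, JA.q_zero, JA.v_mul, JA.p_mul, JA.q_mul, JA.s_mul, map_zero, zero_mul, mul_zero, zero_add, add_zero]
    rw [hp, hp', hq, hq']
    generalize D.ι x.v = u at *
    generalize D.ι y.v = u' at *
    simp only [sub_eq_add_neg, neg_add, mul_add, add_mul, mul_assoc, mul_neg, neg_mul, neg_neg, mul_zero, zero_mul, neg_zero, add_zero, zero_add,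
      osq hs hu su, osq' hs hu su, oswap hu su',
    oswap' hu su', oswap hu so, oswap' hu so,
    oswap hu so', oswap' hu so', oswap hu sg,
    oswap' hu sg, oswap hu sg', oswap' hu sg',
    osq hs hu' su', osq' hs hu' su', oswap hu' so,
    oswap' hu' so, oswap hu' so', oswap' hu' so',
    oswap hu' sg, oswap' hu' sg, oswap hu' sg',
    oswap' hu' sg', osq hs ho so, osq' hs ho so,
    oswap ho so', oswap' ho so', oswap ho sg,
    oswap' ho sg, oswap ho sg', oswap' ho sg',
    osq hs ho' so', osq' hs ho' so', oswap ho' sg,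
    oswap' ho' sg, oswap ho' sg', oswap' ho' sg',
    osq hs hg sg, osq' hs hg sg, oswap hg sg',
    oswap' hg sg', osq hs hg' sg', osq' hs hg' sg',
    cswap he u, cswap' he u, cswap he u',
    cswap' he u', cswap he o, cswap' he o,
    cswap he o', cswap' he o', cswap he g,
    cswap' he g, cswap he g', cswap' he g',
    cswap he e', cswap' he e', cswap he f,
    cswap' he f, cswap he f', cswap' he f',
    cswap he' u, cswap' he' u, cswap he' u',
    cswap' he' u', cswap he' o, cswap' he' o,
    cswap he' o', cswap' he' o', cswap he' g,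
    cswap' he' g, cswap he' g', cswap' he' g',
    cswap he' f, cswap' he' f, cswap he' f',
    cswap' he' f', cswap hf u, cswap' hf u,
    cswap hf u', cswap' hf u', cswap hf o,
    cswap' hf o, cswap hf o', cswap' hf o',
    cswap hf g, cswap' hf g, cswap hf g',
    cswap' hf g', cswap hf f', cswap' hf f',
    cswap hf' u, cswap' hf' u, cswap hf' u',
    cswap' hf' u', cswap hf' o, cswap' hf' o,
    cswap hf' o', cswap' hf' o', cswap hf' g,
    cswap' hf' g, cswap hf' g', cswap' hf' g']
    abel_nf
    simp only [z3, z6, z12, m3, m6, add_zero]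
  · simp only [JA.v_sub, JA.p_sub, JA.q_sub, JA.s_sub, JA.s_zero, JA.v_mul, JA.p_mul, JA.q_mul, JA.s_mul, map_zero, zero_mul, mul_zero, zero_add, add_zero]
    rw [hp, hp', hq, hq', ← map_sub]
    generalize D.ι x.v = u at *
    generalize D.ι y.v = u' at *
    apply tau_zero
    simp only [map_sub, map_add, map_mul, map_neg, se, so, se', so', sf, sg, sf', sg', su, su', sub_eq_add_neg, neg_add, mul_add, add_mul, mul_assoc, mul_neg, neg_mul, neg_neg, mul_zero, zero_mul, neg_zero, add_zero, zero_add,
      osq hs hu su, osq' hs hu su, oswap hu su',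
    oswap' hu su', oswap hu so, oswap' hu so,
    oswap hu so', oswap' hu so', oswap hu sg,
    oswap' hu sg, oswap hu sg', oswap' hu sg',
    osq hs hu' su', osq' hs hu' su', oswap hu' so,
    oswap' hu' so, oswap hu' so', oswap' hu' so',
    oswap hu' sg, oswap' hu' sg, oswap hu' sg',
    oswap' hu' sg', osq hs ho so, osq' hs ho so,
    oswap ho so', oswap' ho so', oswap ho sg,
    oswap' ho sg, oswap ho sg', oswap' ho sg',
    osq hs ho' so', osq' hs ho' so', oswap ho' sg,
    oswap' ho' sg, oswap ho' sg', oswap' ho' sg',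
    osq hs hg sg, osq' hs hg sg, oswap hg sg',
    oswap' hg sg', osq hs hg' sg', osq' hs hg' sg',
    cswap he u, cswap' he u, cswap he u',
    cswap' he u', cswap he o, cswap' he o,
    cswap he o', cswap' he o', cswap he g,
    cswap' he g, cswap he g', cswap' he g',
    cswap he e', cswap' he e', cswap he f,
    cswap' he f, cswap he f', cswap' he f',
    cswap he' u, cswap' he' u, cswap he' u',
    cswap' he' u', cswap he' o, cswap' he' o,
    cswap he' o', cswap' he' o', cswap he' g,
    cswap' he' g, cswap he' g', cswap' he' g',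
    cswap he' f, cswap' he' f, cswap he' f',
    cswap' he' f', cswap hf u, cswap' hf u,
    cswap hf u', cswap' hf u', cswap hf o,
    cswap' hf o, cswap hf o', cswap' hf o',
    cswap hf g, cswap' hf g, cswap hf g',
    cswap' hf g', cswap hf f', cswap' hf f',
    cswap hf' u, cswap' hf' u, cswap hf' u',
    cswap' hf' u', cswap hf' o, cswap' hf' o,
    cswap hf' o', cswap' hf' o', cswap hf' g,
    cswap' hf' g, cswap hf' g', cswap' hf' g']
    abel_nf
    simp only [z3, z6, z12, m3, m6, add_zero]

end Pool.Agent.H461R3.AV
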