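import Pool.Agent.H461R3.AV.Alt

namespace Pool.Agent.H461R3.AV

open Pool.Agent.H461R3.JV FreeNonUnitalNonAssocAlgebra

universe u

/-- `A` is alternative: `(x,x,y) = 0` and `(y,x,x) = 0`, where `(x,y,z) = (xy)z - x(yz)`. -/
def IsAlternativeAlgebra (A : Type u) [NonUnitalNonAssocRing A] : Prop :=
  (∀ x y : A, (x * x) * y - x * (x * y) = 0) ∧ ∀ x y : A, (y * x) * x - y * (x * x) = 0

variable {F : Type u} [Field F]

variable (F) in
noncomputable def idLeft : FreeNonUnitalNonAssocAlgebra F ℕ :=
  (of F 0 * of F 0) * of F 1 - of F 0 * (of F 0 * of F 1)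
variable (F) in
noncomputable def idRight : FreeNonUnitalNonAssocAlgebra F ℕ :=
  (of F 1 * of F 0) * of F 0 - of F 1 * (of F 0 * of F 0)
variable (F) in
/-- the defining identities -/
noncomputable def SA : Set (FreeNonUnitalNonAssocAlgebra F ℕ) :=
  {idComm F, idLeft F, idRight F, idSolv F} ∪ Set.range (fun k => G (of F) k)

theorem SA_alt (A : Type u) [NonUnitalNonAssocRing A] [Module F A] [IsScalarTower F A A]
    [SMulCommClass F A A] (h : InVariety F (SA F) A) :
    IsAlternativeAlgebra A ∧ (∀ x y : A, x * y = y * x) ∧ derivedPower F A 3 = ⊥ := by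
  refine ⟨⟨?_, ?_⟩, ?_, ?_⟩
  · intro x y
    have := h (idLeft F) (by simp [SA]) (fun i => if i = 0 then x else y)
    simpa [idLeft] using this
  · intro x y
    have := h (idRight F) (by simp [SA]) (fun i => if i = 0 then x else y)
    simpa [idRight] using this
  · intro x y
    have := h (idComm F) (by simp [SA]) (fun i => if i = 0 then x else y)
    simpa [idComm, sub_eq_zero] using this
  · apply derived_three
    intro x1 x2 x3 x4 x5 x6 x7 x8
    have := h (idSolv F) (by simp [SA]) (fun i => if i = 0 then x1 else if i = 1 then x2 else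
      if i = 2 then x3 else if i = 3 then x4 else if i = 4 then x5 else if i = 5 then x6 else
      if i = 6 then x7 else x8)
    simpa [idSolv] using this

theorem base_alt [CharP F 3] {V C Q : Type u} [AddCommGroup V] [Module F V]
    [Ring C] [Algebra F C] [AddCommGroup Q] [Module F Q] (D : Dat F V C Q)
    (f : FreeNonUnitalNonAssocAlgebra F ℕ)
    (hf : f ∈ ({idComm F, idLeft F, idRight F, idSolv F} : Set _)) :
    Satisfies F (JA D) f := by
  intro a
  rcases hf with rfl | rfl | rfl | rfl
  · simp only [idComm, map_sub, map_mul, lift_of_apply, sub_eq_zero]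
    exact JA.mul_comm' _ _
  · simp only [idLeft, map_sub, map_mul, lift_of_apply, sub_eq_zero]
    exact left_alt _ _
  · simp only [idRight, map_sub, map_mul, lift_of_apply, sub_eq_zero]
    rw [JA.mul_comm' (a 1) (a 0 * a 0), left_alt, JA.mul_comm' (a 0) (a 0 * a 1),
      JA.mul_comm' (a 0) (a 1)]
  · simp only [idSolv, map_mul, lift_of_apply]
    ext <;> simp

/-- the variety defined by `SA F` is not finitely based -/
theorem not_fb (F : Type u) [Field F] [CharP F 3] : ¬ IsFinitelyBased F (SA F) := by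
  rintro ⟨T, hT, hTS⟩
  -- the algebras `JA (DN F n)`, `n ≥ 2`, are not in the variety
  have h1 : ∀ n, ∃ g ∈ T, ∃ a : ℕ → JA (DN F (n + 2)), lift F a g ≠ 0 := by
    intro n
    by_contra hc
    push Not at hc
    have hin : InVariety F T (JA (DN F (n + 2))) := fun g hg a => hc g hg a
    rw [← hTS] at hin
    obtain ⟨x, hx⟩ := G_DN_ne (F := F) n
    have := hin (G (of F) n) (Or.inr ⟨n, rfl⟩) x
    rw [lift_G] at this
    exact hx this
  choose g hgT a ha using h1
  -- pigeonhole
  obtain ⟨g0, hg0, hinf⟩ : ∃ g0 ∈ T, {n | g n = g0}.Infinite := by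
    by_contra hc
    push Not at hc
    have : (⋃ g0 ∈ T, {n | g n = g0}).Finite := hT.biUnion (fun g0 h => by
      have := hc g0 h
      simpa using this)
    apply Set.infinite_univ (α := ℕ)
    refine this.subset ?_
    intro n _
    simp only [Set.mem_iUnion, Set.mem_setOf_eq]
    exact ⟨g n, hgT n, rfl⟩
  -- the reduced product is in the variety
  have hP : InVariety F (SA F) (JA (DP (fin0 F).mkQ)) := by
    intro f hf
    rcases hf with hf | ⟨k, rfl⟩
    · exact base_alt _ f hf
    · intro x
      change lift F x (G (of F) k) = 0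
      rw [lift_G]
      exact G_DP x k
  rw [hTS] at hP
  let b : ℕ → JA (DP (LinearMap.id : (ℕ → F) →ₗ[F] (ℕ → F))) := fun i =>
    JA.mk _ (fun n => if h : 2 ≤ n then (a (n - 2) i).v else 0)
      (fun n => if h : 2 ≤ n then (a (n - 2) i).p else 0)
      (fun n => if h : 2 ≤ n then (a (n - 2) i).q else 0)
      (fun n => if h : 2 ≤ n then (a (n - 2) i).s else 0)
  have hb : ∀ n, (fun i => ev (n + 2) (b i)) = a n := by
    intro n
    funext i
    have h2 : 2 ≤ n + 2 := by omega
    refine JA.ext' ?_ ?_ ?_ ?_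
    · change (if h : 2 ≤ n + 2 then (a (n + 2 - 2) i).v else 0) = (a n i).v
      rw [dif_pos h2]; rfl
    · change (if h : 2 ≤ n + 2 then (a (n + 2 - 2) i).p else 0) = (a n i).p
      rw [dif_pos h2]; rfl
    · change (if h : 2 ≤ n + 2 then (a (n + 2 - 2) i).q else 0) = (a n i).q
      rw [dif_pos h2]; rfl
    · change (if h : 2 ≤ n + 2 then (a (n + 2 - 2) i).s else 0) = (a n i).s
      rw [dif_pos h2]; rfl
  set z := lift F b g0 with hz
  have hz1 : qt (fin0 F).mkQ z = 0 := by
    rw [hz, lift_nat]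
    exact hP g0 hg0 _
  have hz2 : z.v = 0 ∧ z.p = 0 ∧ z.q = 0 ∧ z.s ∈ fin0 F := by
    refine ⟨congrArg JA.v hz1, congrArg JA.p hz1, congrArg JA.q hz1, ?_⟩
    have := congrArg JA.s hz1
    exact (Submodule.Quotient.mk_eq_zero _).1 this
  obtain ⟨zv, zp, zq, zs⟩ := hz2
  have hz3 : ∀ n ∈ {n | g n = g0}, z.s (n + 2) ≠ 0 := by
    intro n hn h0
    have h2 : ev (n + 2) z = lift F (a n) (g n) := by
      rw [hz, lift_nat, hb, hn]
    apply ha n
    rw [← h2]
    refine JA.ext' ?_ ?_ ?_ ?_
    · change z.v (n + 2) = 0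
      rw [zv]; rfl
    · change z.p (n + 2) = 0
      rw [zp]; rfl
    · change z.q (n + 2) = 0
      rw [zq]; rfl
    · exact h0
  apply hinf
  have : ((fun n => n + 2) ⁻¹' {n | z.s n ≠ 0}).Finite :=
    Set.Finite.preimage (fun a _ b _ h => by simpa using h) zs
  exact this.subset (fun n hn => hz3 n hn)

end Pool.Agent.H461R3.AV
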